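import Mathlib
import Pool.Agent.W964.Si.Final

/-!
# SetIntersection: space `N ^ (1 + 1 / t)` for every data structure with `t` probes

The data structures are all data structures in the cell probe model: the `S` cells contain one of
`W ≤ N ^ b` values each, that is words of `b log N` bits, which depend arbitrarily on the family of
sets, the query algorithm probes cells adaptively, everything else is free, and the algorithm knows
`N` and the number of sets for free.  The data structure has to report the intersections of pairs of
sets correctly for all families of different subsets of `{0, …, N - 1}` of total size `N`, with at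
most `C (T + op)` probes, where `op` is the size of the intersection.

(1) Let `t ≥ 1` be an integer with `C T < t + 1`.  Then
`N ^ (1 + 1 / t) ≤ 10 ^ 11 t ^ 5 (b + 3) ^ 4 (log₂ N) ^ 6 (N + S)` for all `N ≥ 2`.

(2) In particular, `N ^ (1 + 1 / t) ≤ S (log N) ^ 12` for all large `N` and all `C`, `T` and `t`
with `C T < t + 1` and `13 t log log N ≤ log N`.

So for `C T < 2` (pairs of disjoint sets are recognised with one probe) the space is
`S = Ω~(N ^ 2)`; for every constant query time the space is larger than `N` by a polynomial factor,
and it is superlinear for all `T` up to `c log N / log log N`.  Only the number of probes for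
disjoint pairs matters.

Proof.  Let `q` be a prime of order `t log ^ 2 N` and let `f_j` for `j < m = N / (2 q + 1)` be
polynomials over the field with `q` elements which agree pairwise at `log N` points only.  The sets
are the graphs of the `f_j`, the graphs of unknown functions `g_i`, `i < m` (with a mark which makes
them different), and one more set which makes the total size `N`.  A function `g_i` avoids `f_j`
with constant probability.

Cell sampling: choose random sets of cells, each cell with probability `p`, for one probe after the
other: in the step `l` we fix a set of at most `m + 2 p (S + 1)` cells such that, for all but a small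
part of the rows `i`, at least the part `p / (64 t)` of the `j` which have survived so far probe
one of its cells in the step `l`.  (The cells which are probed by many `j` for the same `i` are
treated separately: there is one such cell for each `i`, which is put into the set.)  So the
contents of `t (m + 2 p (S + 1))` cells reveal for half of the rows `i` at least
`k = (p / (64 t)) ^ t m / 8` functions `f_j` which are avoided by `g_i`.  As the `f_j` agree rarely,
only the part `exp (- k / 2)` of all functions avoid `k` of them, if `2 k log N ≤ q`.  Comparing the
numbers, `k m / 4 ≤ O(m) + t (m + 2 p (S + 1)) log (S W + 1)`, which is a contradiction if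
`p` is of order `m / (t S log (S W + 1))`, unless `(p / (64 t)) ^ t m < 8 k`.
-/

namespace Pool.Agent.Results.MP_f326ae_lc.CellProbeTradeoff

open Pool.Agent.W964.Si

theorem result :
    (∀ (N S W b t : ℕ) (C T : ℝ), 2 ≤ N → 1 ≤ t → C * T < t + 1 → W ≤ N ^ b →
      ∀ D : DataStructure N S W, D.Correct → D.Fast C T →
        (N : ℝ) ^ (1 + 1 / (t : ℝ)) ≤
          10 ^ 11 * (t : ℝ) ^ 5 * ((b : ℝ) + 3) ^ 4 * (Real.logb 2 N) ^ 6 * (N + S)) ∧
    (∀ b : ℕ, ∃ N₀ : ℕ, ∀ N ≥ N₀, ∀ (S W t : ℕ) (C T : ℝ), 1 ≤ t → C * T < t + 1 →
      13 * (t * Real.log (Real.log N)) ≤ Real.log N → W ≤ N ^ b →
        ∀ D : DataStructure N S W, D.Correct → D.Fast C T →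
          (N : ℝ) ^ (1 + 1 / (t : ℝ)) ≤ S * (Real.log N) ^ 12) :=
  ⟨fun _ _ _ _ _ _ _ hN ht hCT hW D hD hF => tradeoff hN ht hCT hW D hD hF,
    fun b => superlinear b⟩

end Pool.Agent.Results.MP_f326ae_lc.CellProbeTradeoff
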