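import Pool.Agent.W959.EntFinal

/-!
# SetIntersection: total entanglement at least `N ^ 2 / (T polylog)` for every data structure

A family of `k` subsets of a universe with `n` elements, `k * n ≤ N` (so of total size at most
`N`), is preprocessed.  The data structure (`DS`) has `s` cells of `w` bits with arbitrary
contents, queries read cells adaptively, the computation is free and not uniform, and everything
may be random: every query is answered correctly, with at most `C * (T + op)` probes, with
probability at least `1 / 2`.  The contents of each cell is described by a blackboard protocol with
one player for each set of the family (every function of the family can be described like this).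
On a family `F`, a cell *entangles* a pair of sets if both of them write on the blackboard, and
together more than `b` bits.

Theorem: the total number of pairs entangled by the cells is at least
`N ^ 2 / (10 ^ 21 * C ^ 5 * b ^ 4 * w * T)` on some family.

So the conjectured bound `s = Ω~(N ^ 2 / T)` holds for all data structures each cell of which
entangles at most polylogarithmically many pairs (on the average over the cells), with
`C`, `w`, `b` polylogarithmic: for instance if every cell depends on `polylog N` sets only, which
may be chosen adaptively, or is a sum (or any other function computed with few bits for each set) of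
short summaries of all sets, or a combination of both.  The known structures are of this kind: they
store intersections of pairs of sets, and the sets.  In general, `s * r ≥ N ^ 2 / (T polylog)` if a
cell entangles at most `r` pairs.

Proof.  Let `m` be of the order `C b`, let `n` be of the order `m ^ 2 T`, and put every element into
every set independently with probability `1 / m`.  For the pair `(i, j)` fix all other sets.  A
cell which does not entangle the pair tells the query something about a partition of the space of
the pairs of sets into `2 ^ (3 b)` rectangles.  The two-point inequality
`E f(x) g(y) [x ∧ y = 0] ≤ (1 - c / m ^ 2) ‖f‖_p ‖g‖_p` with `p = 1 + 1 / m` (for two bits `x`, `y`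
which are `1` with probability `1 / m`) tensorises and shows that in a rectangle `X × Y` a fixed set
`Z` is the intersection with probability at most `e ^ (- c n / m ^ 2) (P(X) P(Y)) ^ (1 / p)`.  One
step of the query loses a factor `2 ^ (3 b / (m + 1))` only, that is `e ^ (c' T)` with a small
constant `c'` for all steps together.  So at least of the order `T / (w C)` cells must entangle the
pair; and there are `k ^ 2 / 2` pairs, with `k = N / n`.
-/

set_option autoImplicit false

namespace Pool.Agent.Results.MP_f326ae_lc.EntanglementTradeoff

open Pool.Agent.W959.Ent

/-- For all `N`, all word lengths `w ≤ b` and all query times `C * (T + op)` with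
`10 ^ 10 * (C * b) ^ 2 * T ≤ N` there are `k` and `n` with `k * n ≤ N` such that for every random
data structure which solves SetIntersection for families of `k` subsets of a universe with `n`
elements: if the total number of pairs of sets which are entangled by the cells is at most `R` on
all families, then `N ^ 2 ≤ 10 ^ 21 * C ^ 5 * b ^ 4 * w * T * R`. -/
theorem result (N w b : ℕ) (C T : ℝ) (hw : 1 ≤ w) (hwb : w ≤ b) (hC : 1 ≤ C) (hT : 1 ≤ T)
    (hN : 10 ^ 10 * (C * b) ^ 2 * T ≤ N) :
    ∃ k n : ℕ, k * n ≤ N ∧ ∀ (s : ℕ) (Ω : Type) [Fintype Ω] (p : Ω → ℝ) (D : Ω → DS k n w s),
      Solves p D C T → ∀ R : ℝ,
      (∀ (ω : Ω) (F : Fin k → Finset (Fin n)), ∑ c, (((D ω).entangled b F c).card : ℝ) ≤ R) →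
      (N : ℝ) ^ 2 ≤ 10 ^ 21 * (C ^ 5 * b ^ 4 * w * T * R) :=
  main N w b C T hw hwb hC hT hN

end Pool.Agent.Results.MP_f326ae_lc.EntanglementTradeoff
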